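import Mathlib

/-!
# `∑_{k<n} (3k+1) C(2k,k)^3/16^k = 2n C(2n,n)/4^n ∑_{k<n} C(n+k-1,k) C(2k,k)/4^k`
-/

namespace Pool.Agent.Q267.S16

open Finset

/-- `C(2k,k)/4^k` -/
def u (k : ℕ) : ℚ := (k.centralBinom : ℚ) / 4 ^ k

theorem u_zero : u 0 = 1 := by simp [u]

theorem u_succ (k : ℕ) : 2 * ((k : ℚ) + 1) * u (k + 1) = (2 * k + 1) * u k := by
  have h := Nat.succ_mul_centralBinom_succ k
  have h' : (((k + 1) * (k + 1).centralBinom : ℕ) : ℚ) =
    ((2 * (2 * k + 1) * k.centralBinom : ℕ) : ℚ) := by rw [h]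
  push_cast at h'
  unfold u
  rw [pow_succ]
  field_simp
  linear_combination 2 * h'

/-- `Z(n) = ∑_{k ≤ n} C(n+k,k) C(2k,k)/4^k` -/
def Z (n : ℕ) : ℚ := ∑ k ∈ range (n + 1), ((n + k).choose k : ℚ) * u k

theorem choose_a (n k : ℕ) : ((k : ℚ) + 1) * ((n + (k + 1)).choose (k + 1) : ℚ) =
    ((n : ℚ) + k + 1) * ((n + k).choose k : ℚ) := by
  have h := Nat.add_one_mul_choose_eq (n + k) k
  have h' : (((n + k + 1) * (n + k).choose k : ℕ) : ℚ) =
    (((n + k + 1).choose (k + 1) * (k + 1) : ℕ) : ℚ) := by rw [h]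
  push_cast at h'
  rw [show n + (k + 1) = n + k + 1 by ring]
  linear_combination -h'

theorem choose_b (n k : ℕ) : ((n : ℚ) + 1) * ((n + 1 + k).choose k : ℚ) =
    ((n : ℚ) + 1 + k) * ((n + k).choose k : ℚ) := by
  have h := Nat.add_one_mul_choose_eq (n + k) n
  have e1 : (n + k).choose n = (n + k).choose k := Nat.choose_symm_add
  have e2 : (n + k + 1).choose (n + 1) = (n + 1 + k).choose k := by
    rw [show n + k + 1 = n + 1 + k by ring]; exact Nat.choose_symm_add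
  rw [e1, e2] at h
  have h' : (((n + k + 1) * (n + k).choose k : ℕ) : ℚ) =
    (((n + 1 + k).choose k * (n + 1) : ℕ) : ℚ) := by rw [h]
  push_cast at h'
  linear_combination -h'

theorem tele (n M : ℕ) : ((n : ℚ) + 1) * ∑ k ∈ range M, ((2 * (n : ℚ) + 3) *
    ((n + 1 + k).choose k : ℚ) - (2 * (n : ℚ) + 2) * ((n + k).choose k : ℚ)) * u k =
    2 * (M : ℚ) ^ 2 * ((n + M).choose M : ℚ) * u M := by
  induction M with
  | zero => simp
  | succ M ih =>
    rw [sum_range_succ, mul_add, ih]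
    have h1 := choose_a n M
    have h2 := choose_b n M
    have h3 := u_succ M
    push_cast
    linear_combination ((2 * (n : ℚ) + 3) * u M) * h2 - ((n + (M + 1)).choose (M + 1) : ℚ)
      * ((M : ℚ) + 1) * h3 - ((2 * (M : ℚ) + 1) * u M) * h1

theorem Z_succ (n : ℕ) : (2 * (n : ℚ) + 3) * Z (n + 1) - (2 * (n : ℚ) + 2) * Z n =
    (3 * (n : ℚ) + 4) * ((n + 1).centralBinom : ℚ) * u (n + 1) := by
  have h := tele n (n + 1)
  have hn : ((n : ℚ) + 1) ≠ 0 := by positivity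
  apply mul_left_cancel₀ hn
  have e1 : Z (n + 1) = ∑ k ∈ range (n + 1), ((n + 1 + k).choose k : ℚ) * u k +
      ((n + 1).centralBinom : ℚ) * u (n + 1) := by
    unfold Z
    rw [sum_range_succ, Nat.centralBinom, two_mul]
  have e2 : ∑ k ∈ range (n + 1), ((2 * (n : ℚ) + 3) *
    ((n + 1 + k).choose k : ℚ) - (2 * (n : ℚ) + 2) * ((n + k).choose k : ℚ)) * u k =
    (2 * (n : ℚ) + 3) * ∑ k ∈ range (n + 1), ((n + 1 + k).choose k : ℚ) * u k -
      (2 * (n : ℚ) + 2) * Z n := by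
    unfold Z
    rw [mul_sum, mul_sum, ← sum_sub_distrib]
    exact sum_congr rfl fun k _ => by ring
  have e3 : 2 * ((n + (n + 1)).choose (n + 1) : ℚ) = ((n + 1).centralBinom : ℚ) := by
    have h1 : (n + 1).centralBinom = 2 * (n + (n + 1)).choose (n + 1) := by
      rw [Nat.centralBinom, show 2 * (n + 1) = n + (n + 1) + 1 by ring, Nat.choose_succ_succ,
        Nat.succ_eq_add_one]
      have : (n + (n + 1)).choose n = (n + (n + 1)).choose (n + 1) := Nat.choose_symm_add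
      rw [this]; ring
    rw [h1]; push_cast; ring
  rw [e2] at h
  rw [e1]
  push_cast at h
  linear_combination h + ((n : ℚ) + 1) ^ 2 * u (n + 1) * e3

/-- the closed form -/
theorem wz (n : ℕ) : ∑ k ∈ range (n + 1), (3 * (k : ℚ) + 1) * (k.centralBinom : ℚ) ^ 3 / 16 ^ k =
    (2 * (n : ℚ) + 1) * u n * Z n := by
  induction n with
  | zero => simp [Z, u]
  | succ n ih =>
    rw [sum_range_succ, ih]
    have h1 := Z_succ n
    have h2 := u_succ n
    have h3 : ((n + 1).centralBinom : ℚ) ^ 3 / 16 ^ (n + 1) =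
        ((n + 1).centralBinom : ℚ) * u (n + 1) ^ 2 := by
      unfold u
      rw [show (16 : ℚ) = 4 * 4 by norm_num, mul_pow]
      field_simp
    rw [mul_div_assoc, h3]
    push_cast
    linear_combination (-u (n + 1)) * h1 - Z n * h2

/-- integrality -/
theorem integrality (n : ℕ) (hn : 2 ≤ n) : ∃ z : ℤ,
    (1 / (2 * (n : ℚ) * (n.centralBinom : ℚ))) * ∑ k ∈ range n, (3 * (k : ℚ) + 1) *
      (k.centralBinom : ℚ) ^ 3 * 16 ^ (n - 1 - k) = z := by
  obtain ⟨m, rfl⟩ : ∃ m, n = m + 1 := ⟨n - 1, by omega⟩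
  have h16 : ∑ k ∈ range (m + 1), (3 * (k : ℚ) + 1) * (k.centralBinom : ℚ) ^ 3 *
      16 ^ (m + 1 - 1 - k) = 16 ^ m * ((2 * (m : ℚ) + 1) * u m * Z m) := by
    rw [← wz, mul_sum]
    refine sum_congr rfl fun k hk => ?_
    have hk' : k ≤ m := by simpa [Nat.lt_succ_iff] using hk
    obtain ⟨j, rfl⟩ : ∃ j, m = k + j := ⟨m - k, by omega⟩
    rw [show k + j + 1 - 1 - k = j by omega, pow_add]
    field_simp
  -- the integer `∑ C(m+k,k) C(2k,k) 4^(m-k)`
  have hZ : (4 : ℚ) ^ m * Z m = ((∑ k ∈ range (m + 1), ((m + k).choose k : ℤ) *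
      (k.centralBinom : ℤ) * 4 ^ (m - k) : ℤ) : ℚ) := by
    unfold Z u
    push_cast
    rw [mul_sum]
    refine sum_congr rfl fun k hk => ?_
    have hk' : k ≤ m := by simpa [Nat.lt_succ_iff] using hk
    obtain ⟨j, rfl⟩ : ∃ j, m = k + j := ⟨m - k, by omega⟩
    rw [show k + j - k = j by omega, pow_add]
    field_simp
  have h4 : (4 : ℤ) ∣ ∑ k ∈ range (m + 1), ((m + k).choose k : ℤ) *
      (k.centralBinom : ℤ) * 4 ^ (m - k) := by
    rw [sum_range_succ]
    apply dvd_add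
    · refine dvd_sum fun k hk => ?_
      rw [mem_range] at hk
      apply Dvd.dvd.mul_left
      exact dvd_pow_self 4 (by omega)
    · rw [Nat.sub_self, pow_zero, mul_one]
      have e : (m + m).choose m = m.centralBinom := by rw [Nat.centralBinom, two_mul]
      have h2 : 2 ∣ m.centralBinom := Nat.two_dvd_centralBinom_of_one_le (by omega)
      obtain ⟨c, hc⟩ := h2
      rw [e, hc]
      exact ⟨c * c, by push_cast; ring⟩
  obtain ⟨z, hz⟩ := h4
  refine ⟨z, ?_⟩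
  rw [h16]
  rw [hz] at hZ
  push_cast at hZ
  have h5 := u_succ m
  have h6 : ((m + 1).centralBinom : ℚ) = 4 ^ (m + 1) * u (m + 1) := by
    unfold u
    field_simp
  have hc0 : ((m + 1).centralBinom : ℚ) ≠ 0 := by
    exact_mod_cast (Nat.centralBinom_ne_zero (m + 1))
  have hm0 : ((m : ℚ) + 1) ≠ 0 := by positivity
  push_cast
  rw [one_div, inv_mul_eq_iff_eq_mul₀ (mul_ne_zero (mul_ne_zero two_ne_zero hm0) hc0), h6, pow_succ]
  have h7 : (16 : ℚ) ^ m = 4 ^ m * 4 ^ m := by rw [← mul_pow]; norm_num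
  rw [h7]
  linear_combination ((2 * (m : ℚ) + 1) * u m * 4 ^ m) * hZ - (4 * (z : ℚ) * 4 ^ m) * h5

end Pool.Agent.Q267.S16
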