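import Pool.Agent.Q267.S16.Poly
import Pool.Agent.Q267.S16.WZ
import Pool.Agent.Q267.CDE.ResO

/-!
# The half sum modulo `p⁴`
-/

namespace Pool.Agent.Q267.S16

open Finset Polynomial Q278.PI Pool.Agent.Q267.CDE

section taylor

variable {B : Type*} [CommRing B]

theorem taylor1 (f : B[X]) (x : B) : f.eval x = f.coeff 0 + x * (divX f).eval x := by
  conv_lhs => rw [← divX_mul_X_add f]
  rw [eval_add, eval_mul, eval_X, eval_C]
  ring

theorem taylor3 (f : B[X]) (x : B) : ∃ w : B,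
    f.eval x = f.coeff 0 + x * f.coeff 1 + x ^ 2 * f.coeff 2 + x ^ 3 * w := by
  refine ⟨(divX (divX (divX f))).eval x, ?_⟩
  rw [taylor1 f x, taylor1 (divX f) x, taylor1 (divX (divX f)) x, coeff_divX, coeff_divX, coeff_divX]
  ring

theorem taylor2 (f : B[X]) (x : B) : ∃ w : B,
    f.eval x = f.coeff 0 + x * f.coeff 1 + x ^ 2 * w := by
  refine ⟨(divX (divX f)).eval x, ?_⟩
  rw [taylor1 f x, taylor1 (divX f) x, coeff_divX]
  ring

end taylor

variable (p : ℕ) [hp : Fact p.Prime]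

/-- `u_k` in `ℤ_(p)` -/
noncomputable def UA (k : ℕ) : O p := (k.centralBinom : O p) * inv p 4 ^ k

/-- `1/(2j+1)` in `ℤ_(p)` -/
noncomputable def dA (j : ℕ) : O p := inv p (2 * j + 1)

set_option linter.unusedSectionVars false

section prime

variable (h : ℕ) (hph : p = 2 * h + 1) (h3 : 3 < p)

include hph h3

theorem not_dvd_four : ¬ p ∣ 4 := by
  intro h1
  have h2 : p ∣ 2 ^ 2 := by norm_num; exact h1
  have := (Nat.prime_dvd_prime_iff_eq hp.out Nat.prime_two).1 (hp.out.dvd_of_dvd_pow h2)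
  omega

theorem UA_coe (k : ℕ) : ((UA p k : O p) : ℚ) = uF ℚ k := by
  unfold UA uF
  push_cast
  rw [inv_coe p 4 (not_dvd_four p h hph h3), div_eq_mul_inv, inv_pow]
  norm_num

theorem UA_res (k : ℕ) : res p (UA p k) = uF (ZMod p) k := by
  unfold UA uF
  rw [map_mul, map_pow, map_natCast, res_inv p 4 (not_dvd_four p h hph h3), div_eq_mul_inv, inv_pow]
  norm_num

theorem not_dvd_odd (j : ℕ) (hj : j < h) : ¬ p ∣ 2 * j + 1 :=
  Nat.not_dvd_of_pos_of_lt (by omega) (by omega)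

theorem dA_coe (j : ℕ) (hj : j < h) : ((dA p j : O p) : ℚ) = (2 * (j : ℚ) + 1)⁻¹ := by
  unfold dA
  rw [inv_coe p _ (not_dvd_odd p h hph h3 j hj)]
  push_cast
  rfl

theorem dA_res (j : ℕ) (hj : j < h) : res p (dA p j) = dK p j := by
  unfold dA dK
  rw [res_inv p _ (not_dvd_odd p h hph h3 j hj)]
  push_cast
  rfl

/-- only `d_j`, `j < h`, matter -/
theorem gP_congr {B : Type*} [CommRing B] (U d U' d' : ℕ → B) (hU : ∀ k, U k = U' k)
    (hd : ∀ j < h, d j = d' j) : gP U d h = gP U' d' h := by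
  unfold gP
  refine sum_congr rfl fun k hk => ?_
  have hk' : k ≤ h := by simpa [Nat.lt_succ_iff] using hk
  rw [hU]
  congr 1
  refine prod_congr rfl fun j hj => ?_
  rw [mem_range] at hj
  rw [hd j (by omega)]

theorem g_res : (gP (UA p) (dA p) h).map (res p) = gP (uF (ZMod p)) (dK p) h := by
  rw [gP_map]
  exact gP_congr p h hph h3 _ _ _ _ (fun k => UA_res p h hph h3 k)
    (fun j hj => dA_res p h hph h3 j hj)

theorem G_res : (gP (UA p) (fun j => -(dA p j ^ 2)) h).map (res p) =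
    gP (uF (ZMod p)) (fun j => -(dK p j ^ 2)) h := by
  rw [gP_map]
  refine gP_congr p h hph h3 _ _ _ _ (fun k => UA_res p h hph h3 k) (fun j hj => ?_)
  rw [map_neg, map_pow, dA_res p h hph h3 j hj]

theorem P_coe : (p : ℚ) = 2 * (h : ℚ) + 1 := by
  have := congrArg (Nat.cast : ℕ → ℚ) hph
  push_cast at this
  exact this

theorem Qok (k : ℕ) : ∀ j < k, ((j : ℚ) + 1) ≠ 0 ∧ (2 * (j : ℚ) + 1) ≠ 0 := by
  intro j _
  constructor <;> positivity

theorem g_plus : (((gP (UA p) (dA p) h).eval (p : O p) : O p) : ℚ) = Z h := by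
  rw [gP_eval]
  push_cast
  unfold Z
  refine sum_congr rfl fun k hk => ?_
  have hk' : k ≤ h := by simpa [Nat.lt_succ_iff] using hk
  have h1 := prod_plus (F := ℚ) two_ne_zero h k (Qok p h hph h3 k)
  rw [UA_coe p h hph h3]
  have h2 : ∏ j ∈ range k, (1 + ((dA p j : O p) : ℚ) * (p : ℚ)) =
      ∏ j ∈ range k, (1 + (2 * (h : ℚ) + 1) * (2 * (j : ℚ) + 1)⁻¹) := by
    refine prod_congr rfl fun j hj => ?_
    rw [mem_range] at hj
    rw [dA_coe p h hph h3 j (by omega), P_coe p h hph h3]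
    ring
  rw [h2, pow_two, mul_assoc, h1]
  show uF ℚ k * _ = _ * uF ℚ k
  ring

theorem g_minus : (((gP (UA p) (dA p) h).eval (-(p : O p)) : O p) : ℚ) = uF ℚ h := by
  rw [gP_eval, ← alt_u h]
  push_cast
  refine sum_congr rfl fun k hk => ?_
  have hk' : k ≤ h := by simpa [Nat.lt_succ_iff] using hk
  have h1 := prod_minus (F := ℚ) two_ne_zero h k (Qok p h hph h3 k)
  rw [UA_coe p h hph h3]
  have h2 : ∏ j ∈ range k, (1 + ((dA p j : O p) : ℚ) * -(p : ℚ)) =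
      ∏ j ∈ range k, (1 - (2 * (h : ℚ) + 1) * (2 * (j : ℚ) + 1)⁻¹) := by
    refine prod_congr rfl fun j hj => ?_
    rw [mem_range] at hj
    rw [dA_coe p h hph h3 j (by omega), P_coe p h hph h3]
    ring
  rw [h2, pow_two, mul_assoc, h1]
  ring

theorem G_eval : (gP (UA p) (fun j => -(dA p j ^ 2)) h).eval ((p : O p) ^ 2) = (-1) ^ h := by
  apply Subtype.ext
  rw [gP_eval]
  push_cast
  have h0 : ∀ k ∈ range (h + 1), ((UA p k : O p) : ℚ) ^ 2 * ∏ j ∈ range k,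
      (1 + -(((dA p j : O p) : ℚ) ^ 2) * (p : ℚ) ^ 2) =
      (((-1) ^ k * (h.choose k : ℤ) * ((h + k).choose k : ℤ) : ℤ) : ℚ) := by
    intro k hk
    have hk' : k ≤ h := by simpa [Nat.lt_succ_iff] using hk
    have h1 := prod_both (F := ℚ) two_ne_zero h k (Qok p h hph h3 k)
    rw [UA_coe p h hph h3]
    have h2 : ∏ j ∈ range k, (1 + -(((dA p j : O p) : ℚ) ^ 2) * (p : ℚ) ^ 2) =
        ∏ j ∈ range k, (1 - (2 * (h : ℚ) + 1) ^ 2 * ((2 * (j : ℚ) + 1)⁻¹) ^ 2) := by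
      refine prod_congr rfl fun j hj => ?_
      rw [mem_range] at hj
      rw [dA_coe p h hph h3 j (by omega), P_coe p h hph h3]
      ring
    rw [h2, h1]
    push_cast
    ring
  rw [sum_congr rfl h0, ← Int.cast_sum]
  have h2 := D_self h
  unfold D at h2
  rw [h2]
  push_cast
  rfl

/-- the value modulo `p³` -/
theorem uZ (E : ℕ → ℤ) (hE : IsEuler E) : ∃ w : O p,
    uF ℚ h * Z h = 1 + 2 * (-1) ^ h * (p : ℚ) ^ 2 * (E (p - 3) : ℚ) + (p : ℚ) ^ 3 * (w : ℚ) := by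
  set g := gP (UA p) (dA p) h with hg
  set G := gP (UA p) (fun j => -(dA p j ^ 2)) h with hG
  obtain ⟨w1, hw1⟩ := taylor3 g (p : O p)
  obtain ⟨w2, hw2⟩ := taylor3 g (-(p : O p))
  obtain ⟨w3, hw3⟩ := taylor2 G ((p : O p) ^ 2)
  rw [hG, G_eval p h hph h3, ← hG] at hw3
  have hGg : G.coeff 0 = g.coeff 0 := by
    rw [hG, hg, gP_coeff_zero, gP_coeff_zero]
  rw [hGg] at hw3
  -- reductions
  have r1 : res p (2 * g.coeff 0 * g.coeff 2 - g.coeff 1 ^ 2) = 0 := by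
    have h1 := quad_zero p h hph h3
    rw [← g_res p h hph h3, ← hg, coeff_map, coeff_map, coeff_map] at h1
    rw [map_sub, map_mul, map_mul, map_pow, map_ofNat]
    exact h1
  obtain ⟨v1, hv1⟩ := res_zero p _ r1
  have r2 : res p (-G.coeff 1 - (E (p - 3) : O p)) = 0 := by
    have h1 := coeff_G p h hph h3 E hE
    rw [← G_res p h hph h3, ← hG, coeff_map] at h1
    rw [map_sub, map_neg, h1, map_intCast, sub_self]
  obtain ⟨v2, hv2⟩ := res_zero p _ r2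
  have e8 : ((-1 : O p)) ^ h * (-1) ^ h = 1 := by rw [← mul_pow]; norm_num
  have key : g.eval (p : O p) * g.eval (-(p : O p)) = 1 + 2 * (-1) ^ h * (p : O p) ^ 2 *
      (E (p - 3) : O p) + (p : O p) ^ 3 * (v1 + 2 * (-1) ^ h * v2 +
        (-(2 * (-1) ^ h * (p : O p) * w3) + (p : O p) * (G.coeff 1 + (p : O p) ^ 2 * w3) ^ 2) +
        ((p : O p) * g.coeff 2 ^ 2 +
        w1 * (g.coeff 0 - (p : O p) * g.coeff 1 + (p : O p) ^ 2 * g.coeff 2 - (p : O p) ^ 3 * w2) -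
        w2 * (g.coeff 0 + (p : O p) * g.coeff 1 + (p : O p) ^ 2 * g.coeff 2))) := by
    rw [hw1, hw2]
    have a0 : g.coeff 0 = (-1) ^ h - (p : O p) ^ 2 * G.coeff 1 - (p : O p) ^ 4 * w3 := by
      linear_combination -hw3
    have sq : g.coeff 0 ^ 2 = 1 - 2 * (-1) ^ h * (p : O p) ^ 2 * G.coeff 1 -
        2 * (-1) ^ h * (p : O p) ^ 4 * w3 + (p : O p) ^ 4 * (G.coeff 1 + (p : O p) ^ 2 * w3) ^ 2 := by
      rw [a0]
      linear_combination e8
    linear_combination sq + (p : O p) ^ 2 * hv1 + 2 * (-1) ^ h * (p : O p) ^ 2 * hv2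
  have l : ((g.eval (p : O p) * g.eval (-(p : O p)) : O p) : ℚ) = uF ℚ h * Z h := by
    rw [Subring.coe_mul, g_plus p h hph h3, g_minus p h hph h3]
    ring
  rw [← l]
  obtain ⟨W, hW⟩ : ∃ W : O p, g.eval (p : O p) * g.eval (-(p : O p)) =
      1 + 2 * (-1) ^ h * (p : O p) ^ 2 * (E (p - 3) : O p) + (p : O p) ^ 3 * W := ⟨_, key⟩
  refine ⟨W, ?_⟩
  rw [hW]
  push_cast
  rfl

/-- **the half sum modulo `p⁴`** -/
theorem half_sum (E : ℕ → ℤ) (hE : IsEuler E) : ∃ w : ℚ, ¬ p ∣ w.den ∧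
    ∑ k ∈ range (h + 1), (3 * (k : ℚ) + 1) * (k.centralBinom : ℚ) ^ 3 / 16 ^ k -
      ((p : ℚ) + 2 * (-1) ^ h * (p : ℚ) ^ 3 * (E (p - 3) : ℚ)) = (p : ℚ) ^ 4 * w := by
  obtain ⟨w, hw⟩ := uZ p h hph h3 E hE
  refine ⟨w, w.2, ?_⟩
  rw [wz, ← P_coe p h hph h3, mul_assoc]
  have : u h * Z h = uF ℚ h * Z h := rfl
  rw [this, hw]
  ring

end prime

end Pool.Agent.Q267.S16
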