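import Mathlib

/-!
# Combinatorial identities behind the half sum
-/

namespace Pool.Agent.Q267.S16

open Finset

/-- `∑_k (-1)^k C(h,k) C(M+k,k)` -/
def D (h M : ℕ) : ℤ := ∑ k ∈ range (h + 1), (-1) ^ k * (h.choose k : ℤ) * ((M + k).choose k : ℤ)

theorem D_zero (M : ℕ) : D 0 M = 1 := by simp [D]

theorem D_base (h : ℕ) : D (h + 1) 0 = 0 := by
  unfold D
  have h3 := Int.alternating_sum_range_choose (n := h + 1)
  rw [if_neg (Nat.succ_ne_zero h)] at h3
  rw [← h3]
  refine sum_congr rfl fun k _ => ?_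
  rw [zero_add, Nat.choose_self]
  simp

theorem D_rec (h M : ℕ) : D (h + 1) (M + 1) = D (h + 1) M - D h M := by
  -- `D (h+1) (M+1) - D (h+1) M = ∑ (-1)^k C(h+1,k) C(M+k,k-1)`
  unfold D
  rw [eq_sub_iff_add_eq, ← eq_sub_iff_add_eq', ← sum_sub_distrib]
  rw [sum_range_succ' _ (h + 1)]
  have h1 : ∀ k ∈ range (h + 1), (-1 : ℤ) ^ (k + 1) * ((h + 1).choose (k + 1) : ℤ) *
      ((M + (k + 1)).choose (k + 1) : ℤ) - (-1) ^ (k + 1) * ((h + 1).choose (k + 1) : ℤ) *
      ((M + 1 + (k + 1)).choose (k + 1) : ℤ) = (-1) ^ k * ((h + 1).choose (k + 1) : ℤ) *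
      ((M + 1 + k).choose k : ℤ) := by
    intro k _
    have e : (M + 1 + (k + 1)).choose (k + 1) = (M + 1 + k).choose k + (M + 1 + k).choose (k + 1) := by
      rw [← add_assoc, Nat.choose_succ_succ]
    rw [e, show M + (k + 1) = M + 1 + k by ring, pow_succ]
    push_cast
    ring
  rw [sum_congr rfl h1]
  simp only [pow_zero, Nat.choose_zero_right, Nat.cast_one, mul_one, sub_self, add_zero]
  -- now `∑ (-1)^k C(h,k) C(M+k,k) = ∑ (-1)^k C(h+1,k+1) C(M+1+k,k)`
  have key : ∀ N : ℕ, ∑ k ∈ range N, (-1 : ℤ) ^ k * ((h + 1).choose (k + 1) : ℤ) *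
      ((M + 1 + k).choose k : ℤ) = ∑ k ∈ range N, (-1 : ℤ) ^ k * (h.choose k : ℤ) *
      ((M + k).choose k : ℤ) + (if N = 0 then 0 else (-1) ^ (N - 1) * (h.choose N : ℤ) *
        ((M + N).choose (N - 1) : ℤ)) := by
    intro N
    induction N with
    | zero => simp
    | succ N ih =>
      rw [sum_range_succ, sum_range_succ, ih, if_neg (Nat.succ_ne_zero N), Nat.add_sub_cancel]
      rcases N with _ | N
      · simp
        ring
      · rw [if_neg (Nat.succ_ne_zero N), Nat.add_sub_cancel, Nat.choose_succ_succ h (N + 1)]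
        have e1 : (M + 1 + (N + 1)).choose (N + 1) = (M + (N + 1)).choose N +
            (M + (N + 1)).choose (N + 1) := by
          rw [show M + 1 + (N + 1) = (M + (N + 1)) + 1 by ring, Nat.choose_succ_succ]
        rw [show M + (N + 1 + 1) = M + 1 + (N + 1) by ring, e1, pow_succ]
        push_cast
        ring
  rw [key (h + 1), if_neg (Nat.succ_ne_zero h), Nat.choose_succ_self]
  simp

theorem D_eq (h M : ℕ) : D h M = (-1) ^ h * (M.choose h : ℤ) := by
  induction M generalizing h with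
  | zero =>
    rcases h with _ | h
    · simp [D_zero]
    · rw [D_base]; simp
  | succ M ih =>
    rcases h with _ | h
    · simp [D_zero]
    · rw [D_rec, ih, ih, Nat.choose_succ_succ, pow_succ]
      push_cast
      ring

theorem D_lt (h M : ℕ) (hM : M < h) : D h M = 0 := by
  rw [D_eq, Nat.choose_eq_zero_of_lt hM]
  simp

theorem D_self (h : ℕ) : D h h = (-1) ^ h := by
  rw [D_eq, Nat.choose_self]
  simp

/-! ### products in a field -/

variable {F : Type*} [Field F]

/-- `C(2k,k)/4^k` in a field -/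
def uF (F : Type*) [Field F] (k : ℕ) : F := (k.centralBinom : F) / 4 ^ k

theorem uF_zero : uF F 0 = 1 := by simp [uF]

theorem uF_succ (h2 : (2 : F) ≠ 0) (k : ℕ) (hk : ((k : F) + 1) ≠ 0) :
    uF F (k + 1) = (2 * (k : F) + 1) / (2 * ((k : F) + 1)) * uF F k := by
  have h := Nat.succ_mul_centralBinom_succ k
  have h' : (((k + 1) * (k + 1).centralBinom : ℕ) : F) =
    ((2 * (2 * k + 1) * k.centralBinom : ℕ) : F) := by rw [h]
  push_cast at h'
  have h4 : (4 : F) ≠ 0 := by
    rw [show (4 : F) = 2 * 2 by norm_num]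
    exact mul_ne_zero h2 h2
  unfold uF
  rw [pow_succ]
  field_simp
  linear_combination 2 * h'

theorem prod_plus (h2 : (2 : F) ≠ 0) (M k : ℕ)
    (hk : ∀ j < k, ((j : F) + 1) ≠ 0 ∧ (2 * (j : F) + 1) ≠ 0) :
    uF F k * ∏ j ∈ range k, (1 + (2 * (M : F) + 1) * (2 * (j : F) + 1)⁻¹) =
      ((M + k).choose k : F) := by
  induction k with
  | zero => simp [uF_zero]
  | succ k ih =>
    obtain ⟨h1, h3⟩ := hk k (Nat.lt_succ_self k)
    have ih := ih (fun j hj => hk j (by omega))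
    rw [prod_range_succ, uF_succ h2 k h1]
    have h := Nat.add_one_mul_choose_eq (M + k) k
    have h' : (((M + k + 1) * (M + k).choose k : ℕ) : F) =
      (((M + k + 1).choose (k + 1) * (k + 1) : ℕ) : F) := by rw [h]
    push_cast at h'
    rw [show M + (k + 1) = M + k + 1 by ring]
    set P := ∏ j ∈ range k, (1 + (2 * (M : F) + 1) * (2 * (j : F) + 1)⁻¹)
    field_simp
    linear_combination (2 * (k : F) + 2 * M + 2) * ih + 2 * h'

theorem prod_minus (h2 : (2 : F) ≠ 0) (M k : ℕ)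
    (hk : ∀ j < k, ((j : F) + 1) ≠ 0 ∧ (2 * (j : F) + 1) ≠ 0) :
    uF F k * ∏ j ∈ range k, (1 - (2 * (M : F) + 1) * (2 * (j : F) + 1)⁻¹) =
      (-1) ^ k * (M.choose k : F) := by
  induction k with
  | zero => simp [uF_zero]
  | succ k ih =>
    obtain ⟨h1, h3⟩ := hk k (Nat.lt_succ_self k)
    have ih := ih (fun j hj => hk j (by omega))
    rw [prod_range_succ, uF_succ h2 k h1]
    have h' : (M.choose (k + 1) : F) * ((k : F) + 1) = (M.choose k : F) * ((M : F) - k) := by
      rcases lt_or_ge M k with hlt | hge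
      · rw [Nat.choose_eq_zero_of_lt hlt, Nat.choose_eq_zero_of_lt (show M < k + 1 by omega)]
        simp
      · have h := Nat.choose_succ_right_eq M k
        have h'' : ((M.choose (k + 1) * (k + 1) : ℕ) : F) = ((M.choose k * (M - k) : ℕ) : F) := by
          rw [h]
        rw [Nat.cast_mul, Nat.cast_mul, Nat.cast_sub hge] at h''
        push_cast at h''
        exact h''
    set P := ∏ j ∈ range k, (1 - (2 * (M : F) + 1) * (2 * (j : F) + 1)⁻¹)
    rw [pow_succ]
    field_simp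
    linear_combination (2 * (k : F) - 2 * M) * ih + (2 * (-1) ^ k) * h'

theorem prod_both (h2 : (2 : F) ≠ 0) (M k : ℕ)
    (hk : ∀ j < k, ((j : F) + 1) ≠ 0 ∧ (2 * (j : F) + 1) ≠ 0) :
    uF F k ^ 2 * ∏ j ∈ range k, (1 - (2 * (M : F) + 1) ^ 2 * ((2 * (j : F) + 1)⁻¹) ^ 2) =
      (-1) ^ k * (M.choose k : F) * ((M + k).choose k : F) := by
  have h1 := prod_plus h2 M k hk
  have h3 := prod_minus h2 M k hk
  rw [← h1, ← h3]
  have : ∏ j ∈ range k, (1 - (2 * (M : F) + 1) ^ 2 * ((2 * (j : F) + 1)⁻¹) ^ 2) =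
      (∏ j ∈ range k, (1 - (2 * (M : F) + 1) * (2 * (j : F) + 1)⁻¹)) *
      ∏ j ∈ range k, (1 + (2 * (M : F) + 1) * (2 * (j : F) + 1)⁻¹) := by
    rw [← prod_mul_distrib]
    exact prod_congr rfl fun j _ => by ring
  rw [this]
  ring

/-- the alternating sum of the `u_k` -/
theorem alt_u (h : ℕ) : ∑ k ∈ range (h + 1), (-1) ^ k * (h.choose k : ℚ) * uF ℚ k = uF ℚ h := by
  have us : ∀ k : ℕ, 2 * ((k : ℚ) + 1) * uF ℚ (k + 1) = (2 * k + 1) * uF ℚ k := by
    intro k
    have hk : ((k : ℚ) + 1) ≠ 0 := by positivity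
    rw [uF_succ two_ne_zero k hk]
    field_simp
  have tele : ∀ h N : ℕ, ((h : ℚ) + 1) * ∑ k ∈ range N, ((-1) ^ k * (2 * ((h : ℚ) + 1) *
      ((h + 1).choose k : ℚ) - (2 * (h : ℚ) + 1) * (h.choose k : ℚ)) * uF ℚ k) =
      -(2 * (N : ℚ) ^ 2 * ((-1) ^ N * ((h + 1).choose N : ℚ) * uF ℚ N)) := by
    intro h N
    induction N with
    | zero => simp
    | succ N ih =>
      rw [sum_range_succ, mul_add, ih]
      have h1 := us N
      have h2 : ((h + 1).choose (N + 1) : ℚ) * ((N : ℚ) + 1) = ((h : ℚ) + 1) * (h.choose N : ℚ) := by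
        have := Nat.add_one_mul_choose_eq h N
        have h' : (((h + 1) * h.choose N : ℕ) : ℚ) = (((h + 1).choose (N + 1) * (N + 1) : ℕ) : ℚ) := by
          rw [this]
        push_cast at h'
        exact h'.symm
      have h3 : ((h : ℚ) + 1) * (h.choose N : ℚ) = ((h + 1).choose N : ℚ) * ((h : ℚ) + 1 - N) := by
        rcases lt_or_ge (h + 1) N with hlt | hge
        · rw [Nat.choose_eq_zero_of_lt hlt, Nat.choose_eq_zero_of_lt (show h < N by omega)]
          simp
        · have h4 := Nat.choose_succ_right_eq (h + 1) N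
          have h5 := Nat.add_one_mul_choose_eq h N
          have h6 : (h + 1) * h.choose N = (h + 1).choose N * (h + 1 - N) := by
            rw [h5, h4]
          have h7 : (((h + 1) * h.choose N : ℕ) : ℚ) =
            (((h + 1).choose N * (h + 1 - N) : ℕ) : ℚ) := by rw [h6]
          rw [Nat.cast_mul, Nat.cast_mul, Nat.cast_sub hge] at h7
          push_cast at h7
          exact h7
      push_cast
      rw [pow_succ]
      linear_combination (-(-1 : ℚ) ^ N * ((h + 1).choose (N + 1) : ℚ) * ((N : ℚ) + 1)) * h1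
        - ((-1 : ℚ) ^ N * (2 * N + 1) * uF ℚ N) * h2
        - ((-1 : ℚ) ^ N * (2 * h + 2 * N + 2) * uF ℚ N) * h3
  induction h with
  | zero => simp [uF_zero]
  | succ h ih =>
    have h1 := tele h (h + 2)
    rw [Nat.choose_eq_zero_of_lt (show h + 1 < h + 2 by omega)] at h1
    have h0 : ((h : ℚ) + 1) ≠ 0 := by positivity
    have e1 : ∑ k ∈ range (h + 2), ((-1) ^ k * (2 * ((h : ℚ) + 1) *
      ((h + 1).choose k : ℚ) - (2 * (h : ℚ) + 1) * (h.choose k : ℚ)) * uF ℚ k) =
      2 * ((h : ℚ) + 1) * (∑ k ∈ range (h + 1 + 1), (-1) ^ k * ((h + 1).choose k : ℚ) * uF ℚ k)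
      - (2 * (h : ℚ) + 1) * uF ℚ h := by
      rw [← ih]
      have e2 : ∑ k ∈ range (h + 1), (-1) ^ k * (h.choose k : ℚ) * uF ℚ k =
          ∑ k ∈ range (h + 2), (-1) ^ k * (h.choose k : ℚ) * uF ℚ k := by
        rw [sum_range_succ _ (h + 1), Nat.choose_succ_self]
        simp
      rw [e2, mul_sum, mul_sum, ← sum_sub_distrib]
      exact sum_congr rfl fun k _ => by ring
    rw [e1] at h1
    have h2 := us h
    have h3 : ((h : ℚ) + 1) * (2 * ((h : ℚ) + 1) * (∑ k ∈ range (h + 1 + 1),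
        (-1) ^ k * ((h + 1).choose k : ℚ) * uF ℚ k) - 2 * ((h : ℚ) + 1) * uF ℚ (h + 1)) = 0 := by
      push_cast at h1
      linear_combination h1 - ((h : ℚ) + 1) * h2
    have h4 := (mul_eq_zero.1 h3).resolve_left h0
    have h5 : (2 * ((h : ℚ) + 1)) * ((∑ k ∈ range (h + 1 + 1),
        (-1) ^ k * ((h + 1).choose k : ℚ) * uF ℚ k) - uF ℚ (h + 1)) = 0 := by
      linear_combination h4
    have h6 := (mul_eq_zero.1 h5).resolve_left (mul_ne_zero two_ne_zero h0)
    exact sub_eq_zero.1 h6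

end Pool.Agent.Q267.S16
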