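import Mathlib

/-!
# Euler numbers and alternating power sums
-/

namespace Pool.Agent.Q267.S16

open Finset PowerSeries

/-- the defining recursion of the Euler numbers -/
structure IsEuler (E : ℕ → ℤ) : Prop where
  zero : E 0 = 1
  recur : ∀ n : ℕ, 1 ≤ n → ∑ k ∈ (range (n + 1)).filter (fun k => 2 ∣ k),
    (n.choose k : ℤ) * E (n - k) = 0

/-- `F_n(x) = ∑ C(n,k) E_k x^(n-k)` -/
def Fn (E : ℕ → ℤ) (n : ℕ) (x : ℤ) : ℤ :=
  ∑ ij ∈ antidiagonal n, (n.choose ij.1 : ℤ) * E ij.1 * x ^ ij.2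

/-- the exponential generating function -/
noncomputable def gE (E : ℕ → ℤ) : ℚ⟦X⟧ := PowerSeries.mk fun n => (E n : ℚ) / n.factorial

theorem choose_fact (n i j : ℕ) (h : i + j = n) :
    (n.factorial : ℚ) * ((i.factorial : ℚ)⁻¹ * (j.factorial : ℚ)⁻¹) = (n.choose i : ℚ) := by
  subst h
  have h1 := Nat.choose_mul_factorial_mul_factorial (Nat.le_add_right i j)
  rw [Nat.add_sub_cancel_left] at h1
  have h2 : (((i + j).choose i * i.factorial * j.factorial : ℕ) : ℚ) = ((i + j).factorial : ℚ) := by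
    rw [h1]
  push_cast at h2
  rw [← h2]
  have hi : (i.factorial : ℚ) ≠ 0 := by exact_mod_cast i.factorial_ne_zero
  have hj : (j.factorial : ℚ) ≠ 0 := by exact_mod_cast j.factorial_ne_zero
  field_simp

theorem coeff_gE_mul (E : ℕ → ℤ) (n : ℕ) (x : ℤ) :
    (n.factorial : ℚ) * PowerSeries.coeff n (gE E * rescale (x : ℚ) (exp ℚ)) = (Fn E n x : ℚ) := by
  unfold Fn
  rw [PowerSeries.coeff_mul, mul_sum]
  push_cast
  refine sum_congr rfl fun ij hij => ?_
  rw [Finset.HasAntidiagonal.mem_antidiagonal] at hij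
  have h := choose_fact n ij.1 ij.2 hij
  unfold gE
  rw [PowerSeries.coeff_mk, coeff_rescale, coeff_exp, ← h]
  simp only [one_div, eq_ratCast, Rat.cast_inv, Rat.cast_natCast]
  rw [div_eq_mul_inv]
  ring

theorem gE_mul (E : ℕ → ℤ) (hE : IsEuler E) :
    gE E * (rescale (1 : ℚ) (exp ℚ) + rescale (-1 : ℚ) (exp ℚ)) = PowerSeries.C (2 : ℚ) := by
  ext n
  have hn : (n.factorial : ℚ) ≠ 0 := by exact_mod_cast n.factorial_ne_zero
  apply mul_left_cancel₀ hn
  rw [mul_add, map_add, mul_add]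
  have h1 := coeff_gE_mul E n 1
  have h2 := coeff_gE_mul E n (-1)
  push_cast at h1 h2
  rw [h1, h2, PowerSeries.coeff_C]
  have h3 : Fn E n 1 + Fn E n (-1) = 2 * ∑ k ∈ (range (n + 1)).filter (fun k => 2 ∣ k),
      (n.choose k : ℤ) * E (n - k) := by
    unfold Fn
    rw [← sum_add_distrib, Finset.Nat.sum_antidiagonal_eq_sum_range_succ_mk, sum_filter, mul_sum,
      ← sum_range_reflect]
    refine sum_congr rfl fun k hk => ?_
    rw [mem_range] at hk
    have e1 : n + 1 - 1 - k = n - k := by omega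
    rw [e1, show n - (n - k) = k by omega, Nat.choose_symm (by omega)]
    split_ifs with h
    · obtain ⟨c, rfl⟩ := h
      rw [pow_mul, pow_mul]
      norm_num
      ring
    · have hodd : Odd k := Nat.not_even_iff_odd.1 (fun he => h he.two_dvd)
      rw [hodd.neg_one_pow]
      ring
  rcases Nat.eq_zero_or_pos n with rfl | hpos
  · rw [if_pos rfl]
    have h4 : Fn E 0 1 + Fn E 0 (-1) = 2 := by
      unfold Fn
      simp [hE.zero]
    have h5 : ((Fn E 0 1 : ℤ) : ℚ) + ((Fn E 0 (-1) : ℤ) : ℚ) = 2 := by exact_mod_cast h4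
    rw [h5]
    simp
  · rw [if_neg hpos.ne', mul_zero]
    have h4 := hE.recur n hpos
    rw [h4, mul_zero] at h3
    exact_mod_cast h3

theorem Fn_add (E : ℕ → ℤ) (hE : IsEuler E) (n : ℕ) (x : ℤ) :
    Fn E n (x + 1) + Fn E n (x - 1) = 2 * x ^ n := by
  have h1 := coeff_gE_mul E n (x + 1)
  have h2 := coeff_gE_mul E n (x - 1)
  have h3 := gE_mul E hE
  have e1 : rescale (((x + 1 : ℤ)) : ℚ) (exp ℚ) = rescale (1 : ℚ) (exp ℚ) * rescale (x : ℚ) (exp ℚ) := by
    rw [exp_mul_exp_eq_exp_add]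
    push_cast
    rw [add_comm]
  have e2 : rescale (((x - 1 : ℤ)) : ℚ) (exp ℚ) = rescale (-1 : ℚ) (exp ℚ) * rescale (x : ℚ) (exp ℚ) := by
    rw [exp_mul_exp_eq_exp_add]
    push_cast
    rw [neg_add_eq_sub]
  have h4 : (((Fn E n (x + 1) + Fn E n (x - 1) : ℤ)) : ℚ) = ((2 * x ^ n : ℤ) : ℚ) := by
    push_cast
    rw [← h1, ← h2, ← mul_add, ← map_add, e1, e2]
    have h5 : gE E * (rescale (1 : ℚ) (exp ℚ) * rescale (x : ℚ) (exp ℚ)) +
        gE E * (rescale (-1 : ℚ) (exp ℚ) * rescale (x : ℚ) (exp ℚ)) =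
        PowerSeries.C (2 : ℚ) * rescale (x : ℚ) (exp ℚ) := by
      rw [← h3]; ring
    rw [h5, PowerSeries.coeff_C_mul, coeff_rescale, coeff_exp]
    have hn : (n.factorial : ℚ) ≠ 0 := by exact_mod_cast n.factorial_ne_zero
    simp only [one_div, eq_ratCast, Rat.cast_inv, Rat.cast_natCast]
    field_simp
  exact_mod_cast h4

theorem Fn_zero (E : ℕ → ℤ) (n : ℕ) : Fn E n 0 = E n := by
  unfold Fn
  rw [Finset.Nat.sum_antidiagonal_eq_sum_range_succ_mk, sum_range_succ]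
  have h1 : ∑ x ∈ range n, (n.choose x : ℤ) * E x * (0 : ℤ) ^ (n - x) = 0 := by
    refine sum_eq_zero fun k hk => ?_
    rw [mem_range] at hk
    rw [zero_pow (by omega), mul_zero]
  rw [h1]
  simp

theorem alt_sum (E : ℕ → ℤ) (hE : IsEuler E) (n N : ℕ) :
    2 * ∑ i ∈ range N, (-1) ^ i * (2 * (i : ℤ) + 1) ^ n = Fn E n 0 - (-1) ^ N * Fn E n (2 * N) := by
  induction N with
  | zero => simp
  | succ N ih =>
    rw [sum_range_succ, mul_add, ih]
    have h := Fn_add E hE n (2 * (N : ℤ) + 1)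
    rw [show (2 * (N : ℤ) + 1 + 1) = 2 * ((N + 1 : ℕ) : ℤ) by push_cast; ring,
      show (2 * (N : ℤ) + 1 - 1) = 2 * (N : ℤ) by ring] at h
    rw [pow_succ]
    linear_combination (-(-1 : ℤ) ^ N) * h

/-- Euler numbers as alternating power sums modulo `p` -/
theorem euler_mod (E : ℕ → ℤ) (hE : IsEuler E) (p : ℕ) [hp : Fact p.Prime] (hodd : Odd p) (n : ℕ) :
    ∑ i ∈ range p, (-1) ^ i * (2 * (i : ZMod p) + 1) ^ n = (E n : ZMod p) := by
  have h := congrArg (Int.cast : ℤ → ZMod p) (alt_sum E hE n p)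
  rw [hodd.neg_one_pow, Fn_zero] at h
  have h1 : ((Fn E n (2 * (p : ℤ)) : ℤ) : ZMod p) = ((Fn E n 0 : ℤ) : ZMod p) := by
    unfold Fn
    push_cast
    refine sum_congr rfl fun ij _ => ?_
    rw [CharP.cast_eq_zero (ZMod p) p, mul_zero]
  push_cast at h h1
  rw [h1, Fn_zero] at h
  have h2 : (2 : ZMod p) ≠ 0 := by
    intro h0
    have h3 : ((2 : ℕ) : ZMod p) = 0 := by exact_mod_cast h0
    rw [ZMod.natCast_eq_zero_iff] at h3
    have := (Nat.prime_dvd_prime_iff_eq hp.out Nat.prime_two).1 h3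
    rw [this] at hodd
    exact absurd hodd (by decide)
  apply mul_left_cancel₀ h2
  linear_combination h

end Pool.Agent.Q267.S16
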