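import Pool.Agent.Q267.S16.Comb
import Pool.Agent.Q267.S16.Euler
import Pool.Agent.Q267.CDE.Base

/-!
# The polynomials `∑ u_k² ∏ (1 + X/(2j+1))` modulo `p`
-/

namespace Pool.Agent.Q267.S16

open Finset Polynomial

section general

variable {B : Type*} [CommRing B]

/-- `∑_{k ≤ h} U_k² ∏_{j<k} (1 + d_j X)` -/
noncomputable def gP (U d : ℕ → B) (h : ℕ) : B[X] :=
  ∑ k ∈ range (h + 1), C (U k ^ 2) * ∏ j ∈ range k, (1 + C (d j) * X)

theorem gP_map {B' : Type*} [CommRing B'] (φ : B →+* B') (U d : ℕ → B) (h : ℕ) :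
    (gP U d h).map φ = gP (fun k => φ (U k)) (fun k => φ (d k)) h := by
  unfold gP
  rw [Polynomial.map_sum]
  refine sum_congr rfl fun k _ => ?_
  rw [Polynomial.map_mul, map_C, Polynomial.map_prod, map_pow]
  congr 1
  refine prod_congr rfl fun j _ => ?_
  rw [Polynomial.map_add, Polynomial.map_one, Polynomial.map_mul, map_C, map_X]

theorem gP_eval (U d : ℕ → B) (h : ℕ) (x : B) :
    (gP U d h).eval x = ∑ k ∈ range (h + 1), U k ^ 2 * ∏ j ∈ range k, (1 + d j * x) := by
  unfold gP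
  rw [eval_finsetSum]
  refine sum_congr rfl fun k _ => ?_
  rw [eval_mul, eval_C, eval_prod]
  congr 1
  refine prod_congr rfl fun j _ => ?_
  rw [eval_add, eval_one, eval_mul, eval_C, eval_X]

theorem gP_coeff_zero (U d : ℕ → B) (h : ℕ) : (gP U d h).coeff 0 = ∑ k ∈ range (h + 1), U k ^ 2 := by
  rw [coeff_zero_eq_eval_zero, gP_eval]
  refine sum_congr rfl fun k _ => ?_
  rw [prod_eq_one, mul_one]
  intro j _
  rw [mul_zero, add_zero]

theorem gP_natDegree (U d : ℕ → B) (h : ℕ) : (gP U d h).natDegree ≤ h := by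
  unfold gP
  refine natDegree_sum_le_of_forall_le _ _ fun k hk => ?_
  have hk' : k ≤ h := by simpa [Nat.lt_succ_iff] using hk
  refine le_trans (natDegree_C_mul_le _ _) ?_
  refine le_trans (natDegree_prod_le _ _) ?_
  refine le_trans (sum_le_sum (g := fun _ => 1) fun j _ => ?_) ?_
  · refine le_trans (natDegree_add_le _ _) ?_
    rw [natDegree_one]
    refine max_le (by omega) ?_
    exact le_trans (natDegree_C_mul_le _ _) natDegree_X_le
  · simpa using hk'

end general

variable (p : ℕ) [hp : Fact p.Prime]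

/-- power sums against a polynomial -/
theorem sum_poly (h3 : 3 < p) (f : (ZMod p)[X]) (hf : f.natDegree < p) :
    ∑ x : ZMod p, x ^ (p - 3) * f.eval x = -f.coeff 2 := by
  have h1 : ∀ x : ZMod p, x ^ (p - 3) * f.eval x =
      ∑ n ∈ range p, f.coeff n * x ^ (p - 3 + n) := by
    intro x
    rw [eval_eq_sum_range' hf, mul_sum]
    refine sum_congr rfl fun n _ => ?_
    rw [pow_add]; ring
  rw [sum_congr rfl fun x _ => h1 x, sum_comm, sum_eq_single 2]
  · rw [← mul_sum, CDE.sum_pow p _ (by omega), if_pos (by rw [show p - 3 + 2 = p - 1 by omega])]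
    ring
  · intro n hn hn2
    rw [mem_range] at hn
    rw [← mul_sum, CDE.sum_pow p _ (by omega), if_neg, mul_zero]
    rintro ⟨c, hc⟩
    have hc0 : c ≠ 0 := by
      rintro rfl
      omega
    have hc1 : c < 2 := by
      by_contra h
      have : (p - 1) * 2 ≤ (p - 1) * c := Nat.mul_le_mul_left _ (by omega)
      omega
    have : c = 1 := by omega
    subst this
    omega
  · intro h
    exact absurd (mem_range.2 (by omega)) h

theorem sum_poly_sq (h3 : 3 < p) (h : ℕ) (hph : p = 2 * h + 1) (f : (ZMod p)[X])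
    (hf : f.natDegree ≤ h) : ∑ x : ZMod p, x ^ (p - 3) * f.eval (x ^ 2) = -f.coeff 1 := by
  have h1 := sum_poly p h3 (expand (ZMod p) 2 f) (by rw [natDegree_expand]; omega)
  have h2 : (expand (ZMod p) 2 f).coeff 2 = f.coeff 1 := by
    have := coeff_expand_mul (R := ZMod p) (p := 2) two_pos f 1
    rwa [one_mul] at this
  rw [h2] at h1
  rw [← h1]
  refine sum_congr rfl fun x _ => ?_
  rw [expand_eval]

/-- all residues are `2 i + 1` -/
theorem sum_odd (h : ℕ) (hph : p = 2 * h + 1) (f : ZMod p → ZMod p) :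
    ∑ x : ZMod p, f x = ∑ i ∈ range p, f (2 * (i : ZMod p) + 1) := by
  have h2 : (2 : ZMod p) ≠ 0 := by
    intro h0
    have h3 : ((2 : ℕ) : ZMod p) = 0 := by exact_mod_cast h0
    rw [ZMod.natCast_eq_zero_iff] at h3
    have := (Nat.prime_dvd_prime_iff_eq hp.out Nat.prime_two).1 h3
    omega
  have e1 : ∑ x : ZMod p, f x = ∑ x : ZMod p, f (2 * x + 1) :=
    (Equiv.sum_comp ((Equiv.mulLeft₀ (2 : ZMod p) h2).trans (Equiv.addRight (1 : ZMod p)))
      (fun x => f x)).symm
  rw [e1]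
  symm
  refine sum_bij (fun i _ => (i : ZMod p)) (fun _ _ => mem_univ _) ?_ ?_ (fun _ _ => rfl)
  · intro a ha b hb hab
    rw [mem_range] at ha hb
    rw [ZMod.natCast_eq_natCast_iff] at hab
    exact Nat.ModEq.eq_of_lt_of_lt hab ha hb
  · intro x _
    exact ⟨x.val, mem_range.2 (ZMod.val_lt x), ZMod.natCast_zmod_val x⟩

section prime

variable (h : ℕ) (hph : p = 2 * h + 1) (h3 : 3 < p)

include hph h3

theorem two_ne : (2 : ZMod p) ≠ 0 := by
  have := CDE.cast_ne p 2 (by omega) (by omega)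
  exact_mod_cast this

theorem inv_ok (k : ℕ) (hk : k ≤ h) : ∀ j < k, ((j : ZMod p) + 1) ≠ 0 ∧ (2 * (j : ZMod p) + 1) ≠ 0 := by
  intro j hj
  have a := CDE.cast_ne p (j + 1) (by omega) (by omega)
  have b := CDE.cast_ne p (2 * j + 1) (by omega) (by omega)
  push_cast at a b
  exact ⟨a, b⟩

theorem two_h : 2 * (h : ZMod p) + 1 = 0 := by
  have := congrArg (Nat.cast : ℕ → ZMod p) hph
  push_cast at this
  rw [CharP.cast_eq_zero (ZMod p) p] at this
  exact this.symm

theorem uK (k : ℕ) (hk : k ≤ h) : uF (ZMod p) k = (-1) ^ k * (h.choose k : ZMod p) := by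
  have h1 := prod_minus (two_ne p h hph h3) h k (inv_ok p h hph h3 k hk)
  rw [two_h p h hph h3] at h1
  simpa using h1

/-- `(2j+1)⁻¹` -/
noncomputable def dK (p : ℕ) [Fact p.Prime] (j : ℕ) : ZMod p := (2 * (j : ZMod p) + 1)⁻¹

theorem eval_g (M : ℕ) (hM : M < h) :
    (gP (uF (ZMod p)) (dK p) h).eval (2 * (M : ZMod p) + 1) = 0 := by
  rw [gP_eval]
  have h1 : ∀ k ∈ range (h + 1), uF (ZMod p) k ^ 2 * ∏ j ∈ range k,
      (1 + dK p j * (2 * (M : ZMod p) + 1)) =
      (((-1) ^ k * (h.choose k : ℤ) * ((M + k).choose k : ℤ) : ℤ) : ZMod p) := by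
    intro k hk
    have hk' : k ≤ h := by simpa [Nat.lt_succ_iff] using hk
    have h2 := prod_plus (two_ne p h hph h3) M k (inv_ok p h hph h3 k hk')
    have h4 := uK p h hph h3 k hk'
    have h5 : ∏ j ∈ range k, (1 + dK p j * (2 * (M : ZMod p) + 1)) =
        ∏ j ∈ range k, (1 + (2 * (M : ZMod p) + 1) * (2 * (j : ZMod p) + 1)⁻¹) :=
      prod_congr rfl fun j _ => by unfold dK; ring
    rw [h5, pow_two, mul_assoc, h2, h4]
    push_cast
    ring
  rw [sum_congr rfl h1, ← Int.cast_sum]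
  have := D_lt h M hM
  unfold D at this
  rw [this, Int.cast_zero]

theorem quad_zero : 2 * (gP (uF (ZMod p)) (dK p) h).coeff 0 * (gP (uF (ZMod p)) (dK p) h).coeff 2 -
    (gP (uF (ZMod p)) (dK p) h).coeff 1 ^ 2 = 0 := by
  set g := gP (uF (ZMod p)) (dK p) h with hg
  have hdeg : (g * g.comp (-X)).natDegree < p := by
    have h1 : g.natDegree ≤ h := gP_natDegree _ _ _
    have h2 : (g.comp (-X)).natDegree ≤ h := by
      refine le_trans (natDegree_comp_le) ?_
      rw [natDegree_neg, natDegree_X, mul_one]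
      exact h1
    have h4 : (g * g.comp (-X)).natDegree ≤ g.natDegree + (g.comp (-X)).natDegree :=
      natDegree_mul_le
    omega
  have h1 := sum_poly p h3 (g * g.comp (-X)) hdeg
  have h2 : ∑ x : ZMod p, x ^ (p - 3) * (g * g.comp (-X)).eval x = 0 := by
    rw [sum_odd p h hph (fun x => x ^ (p - 3) * (g * g.comp (-X)).eval x)]
    refine sum_eq_zero fun i hi => ?_
    rw [mem_range] at hi
    rw [eval_mul, eval_comp, eval_neg, eval_X]
    rcases lt_trichotomy i h with h4 | h4 | h4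
    · rw [eval_g p h hph h3 i h4]
      ring
    · rw [h4, two_h p h hph h3, zero_pow (by omega), zero_mul]
    · have h5 := eval_g p h hph h3 (p - 1 - i) (by omega)
      have h6 : 2 * ((p - 1 - i : ℕ) : ZMod p) + 1 = -(2 * (i : ZMod p) + 1) := by
        have e : 2 * (p - 1 - i) + 1 + (2 * i + 1) = 2 * p := by omega
        have e' := congrArg (Nat.cast : ℕ → ZMod p) e
        push_cast at e'
        rw [CharP.cast_eq_zero (ZMod p) p] at e'
        linear_combination e'
      rw [h6] at h5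
      rw [h5]
      ring
  rw [h2] at h1
  have h4 : (g * g.comp (-X)).coeff 2 = 2 * g.coeff 0 * g.coeff 2 - g.coeff 1 ^ 2 := by
    have hc : ∀ n, (g.comp (-X)).coeff n = g.coeff n * (-1) ^ n := by
      intro n
      rw [← neg_one_mul, ← C_1, ← C_neg, comp_C_mul_X_coeff]
    rw [coeff_mul, Finset.Nat.sum_antidiagonal_eq_sum_range_succ_mk]
    simp only [hc, sum_range_succ, sum_range_zero]
    norm_num
    ring
  rw [h4] at h1
  linear_combination h1

theorem eval_G (i : ℕ) (hi : i ≤ h) :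
    (gP (uF (ZMod p)) (fun j => -(dK p j ^ 2)) h).eval ((2 * (i : ZMod p) + 1) ^ 2) = (-1) ^ i := by
  rw [gP_eval]
  have h1 : ∀ k ∈ range (h + 1), uF (ZMod p) k ^ 2 * ∏ j ∈ range k,
      (1 + -(dK p j ^ 2) * (2 * (i : ZMod p) + 1) ^ 2) =
      (((-1) ^ k * (i.choose k : ℤ) * ((i + k).choose k : ℤ) : ℤ) : ZMod p) := by
    intro k hk
    have hk' : k ≤ h := by simpa [Nat.lt_succ_iff] using hk
    have h2 := prod_both (two_ne p h hph h3) i k (inv_ok p h hph h3 k hk')
    have h5 : ∏ j ∈ range k, (1 + -(dK p j ^ 2) * (2 * (i : ZMod p) + 1) ^ 2) =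
        ∏ j ∈ range k, (1 - (2 * (i : ZMod p) + 1) ^ 2 * ((2 * (j : ZMod p) + 1)⁻¹) ^ 2) :=
      prod_congr rfl fun j _ => by unfold dK; ring
    rw [h5, h2]
    push_cast
    ring
  rw [sum_congr rfl h1, ← Int.cast_sum]
  have h2 : ∑ k ∈ range (h + 1), (-1 : ℤ) ^ k * (i.choose k : ℤ) * ((i + k).choose k : ℤ) =
      D i i := by
    unfold D
    symm
    apply sum_subset
    · intro x hx
      simp only [mem_range] at hx ⊢
      omega
    · intro x _ hx
      simp only [mem_range, not_lt] at hx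
      rw [Nat.choose_eq_zero_of_lt (show i < x by omega)]
      simp
  rw [h2, D_self]
  push_cast
  rfl

theorem coeff_G (E : ℕ → ℤ) (hE : IsEuler E) :
    -(gP (uF (ZMod p)) (fun j => -(dK p j ^ 2)) h).coeff 1 = (E (p - 3) : ZMod p) := by
  rw [← sum_poly_sq p h3 h hph _ (gP_natDegree _ _ _),
    sum_odd p h hph (fun x => x ^ (p - 3) *
      (gP (uF (ZMod p)) (fun j => -(dK p j ^ 2)) h).eval (x ^ 2)),
    ← euler_mod E hE p ⟨h, hph⟩]
  refine sum_congr rfl fun i hi => ?_
  rw [mem_range] at hi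
  have key : (gP (uF (ZMod p)) (fun j => -(dK p j ^ 2)) h).eval ((2 * (i : ZMod p) + 1) ^ 2) =
      (-1) ^ i := by
    rcases le_or_gt i h with h4 | h4
    · exact eval_G p h hph h3 i h4
    · have h5 := eval_G p h hph h3 (p - 1 - i) (by omega)
      have h6 : 2 * ((p - 1 - i : ℕ) : ZMod p) + 1 = -(2 * (i : ZMod p) + 1) := by
        have e : 2 * (p - 1 - i) + 1 + (2 * i + 1) = 2 * p := by omega
        have e' := congrArg (Nat.cast : ℕ → ZMod p) e
        push_cast at e'
        rw [CharP.cast_eq_zero (ZMod p) p] at e'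
        linear_combination e'
      rw [h6, neg_sq] at h5
      rw [h5]
      have h7 : ((-1 : ZMod p)) ^ (p - 1 - i) * (-1) ^ i = 1 := by
        rw [← pow_add, show p - 1 - i + i = 2 * h by omega, pow_mul]
        norm_num
      have h8 : ((-1 : ZMod p)) ^ i * (-1) ^ i = 1 := by rw [← mul_pow]; norm_num
      linear_combination (-1) ^ i * h7 - (-1) ^ (p - 1 - i) * h8
  rw [key]
  ring

end prime

end Pool.Agent.Q267.S16
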